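import Pool.Agent.Helper874.Tight.SurfB
import Pool.Agent.Helper874.Tight.ProofA

/-!
Both remaining image homotopy classes contain tight polyhedral immersions.
Class (A): 11 vertices, 28 triangles, Euler characteristic -3, three projective planes of the
same handedness plus a handle.  Class (B): 13 vertices, 30 triangles, genus two, twisted torus
plus a handle.
-/

namespace Pool.Agent.Results.MP_9a15ec_gt.BothClasses

open Pool.Agent.Helper874.Tight

theorem result :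
    (∃ (T : Finset (Finset (Fin 11))) (p : Fin 11 → E3),
      IsClosedSurface T ∧ eulerChar T = -3 ∧
      IsPolyhedralImmersion T p ∧ IsTight T p ∧ ThreeProjectivePlanesPlusHandle T p) ∧
    ∃ (T : Finset (Finset (Fin 13))) (p : Fin 13 → E3),
      IsClosedSurface T ∧ Orientable T ∧ eulerChar T = -2 ∧
      IsPolyhedralImmersion T p ∧ IsTight T p ∧ TwistedTorusPlusHandle T p := by
  refine ⟨⟨A.T, rp A.P, A.surf, A.euler, A.immersion, A.tight, ?_⟩,
    ⟨B.T, rp B.P, B.surf, B.orient, B.euler, B.immersion, B.tight, ?_⟩⟩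
  · exact ⟨A.SM.toMStrip 12, A.SN.toMStrip 12, A.SL.toMStrip 12, A.SA.toStrip 12, A.SB.toStrip 12,
      ⟨A.annM.2, A.annN.2, A.annL.2⟩,
      ⟨-1, -1, -1, by decide, Int.ModEq.refl _, Int.ModEq.refl _,
        ⟨A.injM, A.lkM⟩, ⟨A.injN, A.lkN⟩, ⟨A.injL, A.lkL⟩⟩,
      ⟨A.annA.2, 0, by decide, A.injA, A.lkA⟩, ⟨A.annB.2, 0, by decide, A.injB, A.lkB⟩,
      A.crsAB, A.disMN, A.disML, A.disNL, A.disMA, A.disNA, A.disLA, A.disMB, A.disNB, A.disLB⟩
  · exact ⟨B.SA.toStrip 12, B.SB.toStrip 12, B.SC.toStrip 12, B.SD.toStrip 12,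
      ⟨B.annA.2, -1, by decide, B.injA, B.lkA⟩, ⟨B.annB.2, 1, by decide, B.injB, B.lkB⟩,
      ⟨B.annC.2, 0, by decide, B.injC, B.lkC⟩, ⟨B.annD.2, 0, by decide, B.injD, B.lkD⟩,
      B.crsAB, B.crsCD, B.disAC, B.disAD, B.disBC, B.disBD⟩

end Pool.Agent.Results.MP_9a15ec_gt.BothClasses
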