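import Pool.Agent.Helper874.Tight.SurfB

/-!
Class (B) contains a tight polyhedral immersion: a closed orientable surface of genus two,
triangulated with 13 vertices and 30 triangles, immersed tightly in Euclidean three-space, which
is a twisted torus plus a handle.
-/

namespace Pool.Agent.Results.MP_9a15ec_gt.TwistedTorusHandle

open Pool.Agent.Helper874.Tight

theorem result : ∃ (T : Finset (Finset (Fin 13))) (p : Fin 13 → E3),
    IsClosedSurface T ∧ Orientable T ∧ eulerChar T = -2 ∧
    IsPolyhedralImmersion T p ∧ IsTight T p ∧ TwistedTorusPlusHandle T p :=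
  ⟨B.T, rp B.P, B.surf, B.orient, B.euler, B.immersion, B.tight,
    B.SA.toStrip 12, B.SB.toStrip 12, B.SC.toStrip 12, B.SD.toStrip 12,
    ⟨B.annA.2, -1, by decide, B.injA, B.lkA⟩, ⟨B.annB.2, 1, by decide, B.injB, B.lkB⟩,
    ⟨B.annC.2, 0, by decide, B.injC, B.lkC⟩, ⟨B.annD.2, 0, by decide, B.injD, B.lkD⟩,
    B.crsAB, B.crsCD, B.disAC, B.disAD, B.disBC, B.disBD⟩

end Pool.Agent.Results.MP_9a15ec_gt.TwistedTorusHandle
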